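import Mathlib

set_option autoImplicit false

/-!
# The inequality `π(xy)² ≤ π(x²) π(y²)` fails for arbitrarily large `x`, `y`

If it held for all `x, y ≥ n₀`, then with `y = x + 2` the numbers of primes between consecutive
squares would be strictly increasing from some point on, so `π(x²) ≥ x² / 2 - O(x)`, which is false.
-/

namespace Pool.Agent.Results.MP_93d35c_nt.MinculeteFails

/-- there is no prime between `x (x + 2)` and `(x + 1) ^ 2` -/
theorem pc_mul (x : ℕ) :
    Nat.primeCounting (x * (x + 2)) = Nat.primeCounting ((x + 1) ^ 2) := by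
  have h : (x + 1) ^ 2 = x * (x + 2) + 1 := by ring
  rw [h, Nat.primeCounting, Nat.primeCounting, Nat.primeCounting',
    Nat.count_succ _ (x * (x + 2) + 1)]
  have hnp : ¬ Nat.Prime (x * (x + 2) + 1) := by
    rw [← h]
    exact Nat.Prime.not_prime_pow le_rfl
  simp [hnp]

/-- an upper bound for `π` -/
theorem pc_le : ∃ C : ℕ, ∀ n : ℕ, 30 * Nat.primeCounting n ≤ 8 * n + C := by
  refine ⟨30 * Nat.primeCounting' 31 + 240 + 8, fun n => ?_⟩
  have h := Nat.primeCounting'_add_le (a := 30) (k := 31) (by norm_num) (by norm_num) n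
  have ht : Nat.totient 30 = 8 := by decide
  rw [ht] at h
  have hm : Nat.primeCounting n ≤ Nat.primeCounting' (31 + n) :=
    Nat.monotone_primeCounting' (by omega)
  have hd : 30 * (n / 30) ≤ n := Nat.mul_div_le n 30
  calc 30 * Nat.primeCounting n ≤ 30 * (Nat.primeCounting' 31 + 8 * (n / 30 + 1)) :=
        Nat.mul_le_mul_left _ (hm.trans h)
    _ = 30 * Nat.primeCounting' 31 + 8 * (30 * (n / 30)) + 240 := by ring
    _ ≤ 30 * Nat.primeCounting' 31 + 8 * n + 240 := by omega
    _ ≤ _ := by omega

/-- The inequality `π(xy)² ≤ π(x²) π(y²)` fails for arbitrarily large integers `x, y`, and even with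
`y = x + 2`; so there is no `n₀` such that it holds for all integers `x, y ≥ n₀`. -/
theorem result : ∀ n₀ : ℕ, ∃ x y : ℕ, n₀ ≤ x ∧ n₀ ≤ y ∧ y = x + 2 ∧
    Nat.primeCounting (x ^ 2) * Nat.primeCounting (y ^ 2) < Nat.primeCounting (x * y) ^ 2 := by
  have key : ∀ n₀ : ℕ, ∃ x : ℕ, n₀ ≤ x ∧
      Nat.primeCounting (x ^ 2) * Nat.primeCounting ((x + 2) ^ 2) <
        Nat.primeCounting (x * (x + 2)) ^ 2 := by
    intro n₀
    by_contra hcon
    push Not at hcon
    set s : ℕ → ℕ := fun x => Nat.primeCounting (x ^ 2) with hs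
    have hmono : ∀ x, s x ≤ s (x + 1) := fun x =>
      Nat.monotone_primeCounting (Nat.pow_le_pow_left (Nat.le_succ x) 2)
    have hmono' : Monotone s := monotone_nat_of_le_succ hmono
    -- log-convexity
    have hlc : ∀ x, n₀ + 2 ≤ x → s (x + 1) ^ 2 ≤ s x * s (x + 2) := by
      intro x hx
      have h := hcon x (by omega)
      rwa [pc_mul x] at h
    -- positivity
    have hpos : ∀ x, 2 ≤ x → 1 ≤ s x := by
      intro x hx
      have h1 : Nat.primeCounting 2 ≤ s x := Nat.monotone_primeCounting (by nlinarith)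
      have h2 : Nat.primeCounting 2 = 1 := by decide
      omega
    -- a point where the sequence increases
    obtain ⟨x₁, hx₁, hd₁⟩ : ∃ x₁, n₀ + 2 ≤ x₁ ∧ s x₁ < s (x₁ + 1) := by
      by_contra hno
      push Not at hno
      have hconst : ∀ j, s (n₀ + 2 + j) ≤ s (n₀ + 2) := by
        intro j
        induction j with
        | zero => exact le_rfl
        | succ j ih => exact (hno (n₀ + 2 + j) (by omega)).trans ih
      have htend := Nat.tendsto_primeCounting
      obtain ⟨N, hN⟩ := (Filter.tendsto_atTop_atTop.1 htend) (s (n₀ + 2) + 1)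
      have h1 := hN ((n₀ + 2 + N) ^ 2)
        ((Nat.le_add_left N (n₀ + 2)).trans (Nat.le_self_pow (by norm_num) _))
      have h2 := hconst N
      simp only [hs] at h1 h2
      omega
    -- the increments grow
    have hgrow : ∀ j, s (x₁ + j) + (j + 1) ≤ s (x₁ + j + 1) := by
      intro j
      induction j with
      | zero => simpa using hd₁
      | succ j ih =>
        have hc := hlc (x₁ + j) (by omega)
        have hm := hmono (x₁ + j + 1)
        have hp := hpos (x₁ + j + 1) (by omega)
        have e1 : x₁ + (j + 1) = x₁ + j + 1 := by ring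
        rw [e1]
        have e2 : x₁ + j + 2 = x₁ + j + 1 + 1 := by ring
        rw [e2] at hc
        generalize s (x₁ + j) = a at *
        generalize s (x₁ + j + 1) = b at *
        generalize s (x₁ + j + 1 + 1) = c at *
        by_contra hlt
        push Not at hlt
        -- `c < b + (j + 2)` and `a + (j + 1) ≤ b`
        have h1 : c ≤ b + (j + 1) := by omega
        obtain ⟨t, rfl⟩ : ∃ t, b = a + (j + 1) + t := ⟨b - (a + (j + 1)), by omega⟩
        have h2 : a * c ≤ a * (a + (j + 1) + t + (j + 1)) := Nat.mul_le_mul_left _ h1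
        nlinarith
    have hsum : ∀ j, j * (j + 1) ≤ 2 * s (x₁ + j) := by
      intro j
      induction j with
      | zero => simp
      | succ j ih =>
        have h1 := hgrow j
        have e1 : x₁ + (j + 1) = x₁ + j + 1 := by ring
        rw [e1]
        nlinarith
    obtain ⟨C, hC⟩ := pc_le
    -- compare
    set j := 100 * (x₁ + C + 1) with hj
    have h1 := hsum j
    have h2 := hC ((x₁ + j) ^ 2)
    have h3 : Nat.primeCounting ((x₁ + j) ^ 2) = s (x₁ + j) := rfl
    rw [h3] at h2
    have h4 : 15 * (j * (j + 1)) ≤ 8 * (x₁ + j) ^ 2 + C := by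
      calc 15 * (j * (j + 1)) ≤ 15 * (2 * s (x₁ + j)) := Nat.mul_le_mul_left _ h1
        _ = 30 * s (x₁ + j) := by ring
        _ ≤ _ := h2
    have h5 : 100 * x₁ ≤ j := by rw [hj]; omega
    have h6 : C < j := by rw [hj]; omega
    nlinarith
  intro n₀
  obtain ⟨x, hx, hlt⟩ := key n₀
  exact ⟨x, x + 2, hx, by omega, rfl, hlt⟩

end Pool.Agent.Results.MP_93d35c_nt.MinculeteFails
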